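import Mathlib
import Pool.Agent.V1189.DG.Scale

/-!
# Linear recurrences for the digits of `π + e`, `π - e`, `π e`, `π / e`, each in its own base

The linear complexity `N_b(x; L)` of the first `L` digits of `x` in base `b` is the least order of a
linear recurrence over `ℚ` satisfied by these digits; it is bounded in `L` if and only if `x` is
rational, and about `L / 2` for random digits.

(1) Let `x, y` be two of the numbers `t + e`, `t - e`, `t e`, `t / e` with real `t` bounded and bounded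
away from `0, e, -e`, and let `μ = 3` for `{t + e, t e}` and `{t - e, t e}`, `μ = 2` for the four other
pairs. For all bases `b, c` and all `L, M`
`(1/μ - ε) min (L log b, M log c) ≤ (N_b(x; L) + C) log b + (N_c(y; M) + C) log c`
where `C` depends only on `ε` and the bounds for `t`.

(2) For digits in one base: the joint `k`-error linear complexity, and the number of changes of digits.

(3) For `t = π`, arbitrary bases `b_i` and `L_i log b_i ≥ Λ ≥ K log b_i` (`K` depends only on `ε`), at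
least three of the four numbers have `N log b ≥ (1/6 - ε) Λ`, and of `π + e`, `π - e`, `π / e` at least
two have `N log b ≥ (1/4 - ε) Λ`.

(4) For functions `A t + B`, `A' t + B'` of `t` with coefficients in `ℚ(e)`, `A, A' ≠ 0`, of which the
second is not a rational affine function of the first: for every real `t` either both numbers are
rational, or `κ min (L log b, M log c)` is a lower bound as in (1), with `κ > 0` independent of `t`.

(5) `J` numbers in a bounded interval, in a relation with integer coefficients and `n + 1` powers of `e`.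

The definitions are those of the starting file `MP_a49cf6_nt.DigitRecurrences`.
-/

set_option autoImplicit false

namespace Pool.Agent.Results.MP_a2f59b_nt.DigitsInOwnBases

open Finset Polynomial

/-- the `i`-th digit of `x` after the point in base `b` -/
noncomputable def digit (b : ℕ) (x : ℝ) (i : ℕ) : ℤ := ⌊x * (b : ℝ) ^ i⌋ % (b : ℤ)

/-- The terms `s_1, …, s_L` satisfy the linear recurrence
`s_(i+m) = c_0 s_i + … + c_(m-1) s_(i+m-1)` for `1 ≤ i ≤ L - m`. -/
def Recurrence (s : ℕ → ℤ) (c : ℕ → ℚ) (L m : ℕ) : Prop :=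
  ∀ i : ℕ, 1 ≤ i → i + m ≤ L → (s (i + m) : ℚ) = ∑ j ∈ range m, c j * (s (i + j) : ℚ)

/-- the linear complexity of the first `L` digits of `x` in base `b` -/
noncomputable def complexity (b : ℕ) (x : ℝ) (L : ℕ) : ℕ :=
  sInf {m | ∃ c : ℕ → ℚ, Recurrence (digit b x) c L m}

/-- the joint `k`-error linear complexity of the first `L` digits of the numbers `x j` in base `b`:
the least order of a common recurrence for the first `L` terms of sequences of integers between `-b`
and `b` which agree with the digits of all the `x j` in all but at most `k` of the places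
`1, …, L` -/
noncomputable def jointComplexity {J : ℕ} (b : ℕ) (x : Fin J → ℝ) (k L : ℕ) : ℕ :=
  sInf {m | ∃ (s : Fin J → ℕ → ℤ) (c : ℕ → ℚ), (∀ j i, |s j i| ≤ b) ∧
    ((Icc 1 L).filter fun i => ∃ j, s j i ≠ digit b (x j) i).card ≤ k ∧
    ∀ j, Recurrence (s j) c L m}

/-- the function `m + C √((m+1) log (m+2))` -/
noncomputable def F (C : ℝ) (m : ℕ) : ℝ :=
  m + C * Real.sqrt (((m : ℝ) + 1) * Real.log ((m : ℝ) + 2))

/-- the number of `i ≤ M` with different `i`-th and `(i+1)`-st digits, for `x` or for `y` -/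
noncomputable def changes (b : ℕ) (x y : ℝ) (M : ℕ) : ℕ :=
  ((Icc 1 M).filter fun i =>
    digit b x i ≠ digit b x (i + 1) ∨ digit b y i ≠ digit b y (i + 1)).card

/-- the four numbers `t + e`, `t - e`, `t e`, `t / e` -/
noncomputable def four (t : ℝ) : Fin 4 → ℝ :=
  ![t + Real.exp 1, t - Real.exp 1, t * Real.exp 1, t / Real.exp 1]

/-- `3` for the pairs `{t + e, t e}` and `{t - e, t e}`, `2` for the other pairs -/
def expo (i j : Fin 4) : ℕ := if (i = 2 ∧ j ≠ 3) ∨ (j = 2 ∧ i ≠ 3) then 3 else 2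

/-- bounded, and bounded away from `0`, `-e`, `e` -/
def Good (T δ t : ℝ) : Prop :=
  |t| ≤ T ∧ δ ≤ |t| ∧ δ ≤ |t + Real.exp 1| ∧ δ ≤ |t - Real.exp 1|

/-- `z ∈ ℚ(e)` -/
def InQe (z : ℝ) : Prop :=
  ∃ p q : ℤ[X], aeval (Real.exp 1) q ≠ 0 ∧ z = aeval (Real.exp 1) p / aeval (Real.exp 1) q

/-- the coefficient `a_(i 0) + a_(i 1) y_0 + … + a_(i J) y_(J-1)` of `e ^ (k i)` in a relation -/
noncomputable def coef {J n : ℕ} (a : Fin (n + 1) → Fin (J + 1) → ℤ) (y : Fin J → ℝ)
    (i : Fin (n + 1)) : ℝ := a i 0 + ∑ j : Fin J, (a i j.succ : ℝ) * y j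

/-- **Digits in their own bases.** See the text at the beginning of the file. -/
theorem result :
    -- (1)
    (∀ i j : Fin 4, i ≠ j → ∀ T δ ε : ℝ, 0 < δ → 0 < ε → ∃ C : ℝ, 0 < C ∧ ∀ t, Good T δ t →
      ∀ b c : ℕ, 2 ≤ b → 2 ≤ c → ∀ L M : ℕ,
        (1 / expo i j - ε) * min (L * Real.log b) (M * Real.log c) ≤
          ((complexity b (four t i) L : ℝ) + C) * Real.log b +
            ((complexity c (four t j) M : ℝ) + C) * Real.log c) ∧
    -- (2)
    (∀ i j : Fin 4, i ≠ j → ∀ T δ μ : ℝ, 0 < δ → expo i j < μ → ∃ C : ℝ, 0 < C ∧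
      ∀ t, Good T δ t → ∀ b : ℕ, 2 ≤ b →
        (∀ k L : ℕ, (L : ℝ) ≤ (∑ l ∈ range (k + 1), μ ^ (l + 1)) *
          F C (jointComplexity b ![four t i, four t j] k L)) ∧
        ∀ M : ℕ, 1 ≤ M → Real.log M / Real.log μ - C ≤ changes b (four t i) (four t j) M) ∧
    -- (3)
    (Good 4 (1 / 10) Real.pi ∧
    ∀ ε : ℝ, 0 < ε → ∃ K : ℝ, 0 < K ∧ ∀ b : Fin 4 → ℕ, (∀ i, 2 ≤ b i) →
      ∀ (L : Fin 4 → ℕ) (Λ : ℝ), (∀ i, K * Real.log (b i) ≤ Λ) → (∀ i, Λ ≤ L i * Real.log (b i)) →
        3 ≤ (univ.filter fun i : Fin 4 => (1 / 6 - ε) * Λ ≤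
          complexity (b i) (four Real.pi i) (L i) * Real.log (b i)).card ∧
        2 ≤ ((univ.filter fun i : Fin 4 => i ≠ 2).filter fun i : Fin 4 => (1 / 4 - ε) * Λ ≤
          complexity (b i) (four Real.pi i) (L i) * Real.log (b i)).card) ∧
    -- (4)
    (∀ A B A' B' : ℝ, InQe A → InQe B → InQe A' → InQe B' → A ≠ 0 → A' ≠ 0 →
      (¬ ∃ r s : ℚ, A' = r * A ∧ B' = r * B + s) → ∃ κ : ℝ, 0 < κ ∧ ∀ t : ℝ,
        (∃ r s : ℚ, A * t + B = r ∧ A' * t + B' = s) ∨
        ∃ C : ℝ, 0 < C ∧ ∀ b c : ℕ, 2 ≤ b → 2 ≤ c → ∀ L M : ℕ,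
          κ * min (L * Real.log b) (M * Real.log c) ≤
            ((complexity b (A * t + B) L : ℝ) + C) * Real.log b +
              ((complexity c (A' * t + B') M : ℝ) + C) * Real.log c) ∧
    -- (5)
    (∀ J n : ℕ, 1 ≤ n → ∀ k : Fin (n + 1) → ℕ, Function.Injective k → k 0 = 0 →
      ∀ (a : Fin (n + 1) → Fin (J + 1) → ℤ) (T δ ε : ℝ), 0 < δ → 0 < ε →
        ∃ C : ℝ, 0 < C ∧ ∀ y : Fin J → ℝ, (∀ j, |y j| ≤ T) →
          ∑ i, coef a y i * Real.exp 1 ^ k i = 0 → (∃ i, δ ≤ |coef a y i|) →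
          ∀ b : Fin J → ℕ, (∀ j, 2 ≤ b j) → ∀ L : Fin J → ℕ,
            ∃ j, (1 / ((n : ℝ) + 1) - ε) * (L j * Real.log (b j)) ≤
              ∑ i, ((complexity (b i) (y i) (L i) : ℝ) + C) * Real.log (b i)) :=
  ⟨fun i j hij T δ ε hδ hε => Pool.Agent.V1189.DG.four_linear i j hij T δ ε hδ hε,
    fun i j hij T δ μ hδ hμ => Pool.Agent.V1189.DG.four_joint i j hij T δ μ hδ hμ,
    ⟨Pool.Agent.V1189.DG.good_pi, fun ε hε => Pool.Agent.V1189.DG.three_of_four ε hε⟩,
    fun A B A' B' hA hB hA' hB' h1 h2 h3 =>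
      Pool.Agent.V1189.DG.dich_linear A B A' B' hA hB hA' hB' h1 h2 h3,
    fun J n hn k hk hk0 a T δ ε hδ hε =>
      Pool.Agent.V1189.DG.rel_linear J n hn k hk hk0 a T δ ε hδ hε⟩

end Pool.Agent.Results.MP_a2f59b_nt.DigitsInOwnBases
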