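import Pool.Agent.V11210.EP.FourMain
import Pool.Agent.V11210.EP.Rat

/-!
# `π + e`, `π - e`, `π e`, `π / e` at every scale

At every scale at most one of the four numbers is close to an algebraic number of bounded degree; the
same for every complex number `t` in place of `π`, uniformly, and with explicit exponents for rational
approximations.
-/

set_option autoImplicit false

namespace Pool.Agent.Results.MP_a2f59b_nt.EveryScale

open Polynomial

/-- `α` is an algebraic number of degree at most `d` and height at most `H`: a root of an irreducible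
integer polynomial of degree at most `d` with coefficients of absolute value at most `H`. -/
def IsAlg (d : ℕ) (H : ℝ) (α : ℂ) : Prop :=
  ∃ A : ℤ[X], Irreducible A ∧ A.natDegree ≤ d ∧ (∀ j, |(A.coeff j : ℝ)| ≤ H) ∧ aeval α A = 0

/-- the number `e` -/
noncomputable def e : ℝ := Real.exp 1

/-- the four numbers `t + e`, `t - e`, `t e`, `t / e` -/
noncomputable def four (t : ℂ) : Fin 4 → ℂ := ![t + e, t - e, t * e, t / e]

/-- the indices of the numbers among `t + e`, `t - e`, `t e`, `t / e` which have an algebraic number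
of degree at most `d` and height at most `H` at distance at most `H ^ (-κ)` -/
def close (d : ℕ) (κ : ℝ) (t : ℂ) (H : ℝ) : Set (Fin 4) :=
  {i | ∃ α : ℂ, IsAlg d H α ∧ ‖four t i - α‖ ≤ H ^ (-κ)}

/-- the sum of the errors of the approximations `p / q` to `x` and `r / s` to `y` -/
noncomputable def err (x y : ℝ) (p r : ℤ) (q s : ℕ) : ℝ := |x - (p : ℝ) / q| + |y - (r : ℝ) / s|

open Pool.Agent.V11210.EP in
/-- the uniform version -/
lemma uniform (d : ℕ) (T δ : ℝ) (hδ : 0 < δ) :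
    ∃ κ H₀ : ℝ, 0 ≤ κ ∧ ∀ t : ℂ, ‖t‖ ≤ T → δ ≤ ‖t‖ → δ ≤ ‖t - e‖ → δ ≤ ‖t + e‖ →
      ∀ H : ℝ, H₀ ≤ H → (close d κ t H).Subsingleton :=
  every_scale d T δ hδ

lemma e_lt_pi : e < Real.pi := by
  have h1 := Real.exp_one_lt_d9
  have h2 := Real.pi_gt_three
  unfold e
  linarith

open Pool.Agent.V11210.EP in
lemma explicit (T δ η : ℝ) (hδ : 0 < δ) (hη : 0 < η) : ∃ c : ℝ, 0 < c ∧ ∀ t : ℝ, |t| ≤ T →
    δ ≤ |t| → δ ≤ |t - e| → δ ≤ |t + e| → ∀ (p r : ℤ) (q s : ℕ), 0 < q → 0 < s →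
      c * ((q : ℝ) * s) ^ (-(2 + η)) ≤ err (t + e) (t - e) p r q s ∧
      c * ((q : ℝ) * s) ^ (-(2 + η)) ≤ err (t + e) (t / e) p r q s ∧
      c * ((q : ℝ) * s) ^ (-(2 + η)) ≤ err (t - e) (t / e) p r q s ∧
      c * ((q : ℝ) * s) ^ (-(2 + η)) ≤ err (t * e) (t / e) p r q s ∧
      c * ((q : ℝ) * s) ^ (-(3 + η)) ≤ err (t + e) (t * e) p r q s ∧
      c * ((q : ℝ) * s) ^ (-(3 + η)) ≤ err (t - e) (t * e) p r q s := by
  obtain ⟨E, hE⟩ : ∃ E : ℝ, E = e := ⟨_, rfl⟩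
  have hE1 : 1 ≤ E := by rw [hE]; exact exp_one_ge
  obtain ⟨T', hT'⟩ : ∃ T' : ℝ, T' = (|T| + 1) * (E + 1) := ⟨_, rfl⟩
  have hT'0 : 0 ≤ T' := by rw [hT']; positivity
  have hTa := abs_nonneg T
  obtain ⟨c1, hc1, h1⟩ := r01 T' η hT'0 hη
  obtain ⟨c2, hc2, h2⟩ := r3s T' δ η 1 (by simp) hT'0 hδ hη
  obtain ⟨c3, hc3, h3⟩ := r3s T' δ η (-1) (by simp) hT'0 hδ hη
  obtain ⟨c4, hc4, h4⟩ := r32 T' δ η hT'0 hδ hη
  obtain ⟨c5, hc5, h5⟩ := r02 T' η hT'0 hη
  obtain ⟨c6, hc6, h6⟩ := r12 T' η hT'0 hη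
  refine ⟨min (min (min c1 c2) (min c3 c4)) (min c5 c6), by
    simp only [lt_min_iff]
    exact ⟨⟨⟨hc1, hc2⟩, hc3, hc4⟩, hc5, hc6⟩, ?_⟩
  intro t hT h0 hm hp p r q s hq hs
  have hTt : |t| ≤ |T| := hT.trans (le_abs_self T)
  have n1 : |t + Real.exp 1| ≤ T' := by
    refine (abs_add_le _ _).trans ?_
    rw [abs_of_pos (Real.exp_pos 1), hT']
    have : Real.exp 1 = E := hE.symm
    rw [this]
    nlinarith
  have n2 : |t - Real.exp 1| ≤ T' := by
    refine (abs_sub _ _).trans ?_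
    rw [abs_of_pos (Real.exp_pos 1), hT']
    have : Real.exp 1 = E := hE.symm
    rw [this]
    nlinarith
  have n3 : |t * Real.exp 1| ≤ T' := by
    rw [abs_mul, abs_of_pos (Real.exp_pos 1), hT']
    have : Real.exp 1 = E := hE.symm
    rw [this]
    nlinarith [abs_nonneg t]
  have n4 : |t / Real.exp 1| ≤ T' := by
    rw [abs_div, abs_of_pos (Real.exp_pos 1), hT']
    have h7 : Real.exp 1 = E := hE.symm
    rw [h7]
    calc |t| / E ≤ |t| / 1 := by gcongr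
      _ ≤ _ := by
          rw [div_one]
          nlinarith
  have n5 : δ ≤ |t * Real.exp 1| := by
    rw [abs_mul, abs_of_pos (Real.exp_pos 1)]
    have h7 : Real.exp 1 = E := hE.symm
    rw [h7]
    nlinarith
  have hn : (0 : ℝ) ≤ ((q : ℝ) * s) ^ (-(2 + η)) := by positivity
  have hn' : (0 : ℝ) ≤ ((q : ℝ) * s) ^ (-(3 + η)) := by positivity
  refine ⟨?_, ?_, ?_, ?_, ?_, ?_⟩
  · refine le_trans (mul_le_mul_of_nonneg_right ?_ hn) (h1 t n1 n2 p r q s hq hs)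
    simp
  · have h := h2 t (by push_cast; rw [one_mul]; exact n1) n4 (by push_cast; rw [one_mul]; exact hp)
      p r q s hq hs
    push_cast at h
    rw [one_mul] at h
    refine le_trans (mul_le_mul_of_nonneg_right ?_ hn) h
    simp
  · have e1 : t + ((-1 : ℤ) : ℝ) * Real.exp 1 = t - Real.exp 1 := by push_cast; ring
    have h := h3 t (by rw [e1]; exact n2) n4 (by rw [e1]; exact hm) p r q s hq hs
    rw [e1] at h
    refine le_trans (mul_le_mul_of_nonneg_right ?_ hn) h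
    simp
  · refine le_trans (mul_le_mul_of_nonneg_right ?_ hn) (h4 t n3 n4 n5 p r q s hq hs)
    simp
  · refine le_trans (mul_le_mul_of_nonneg_right ?_ hn') (h5 t n1 n3 p r q s hq hs)
    simp
  · refine le_trans (mul_le_mul_of_nonneg_right ?_ hn') (h6 t n2 n3 p r q s hq hs)
    simp

/-- **The four numbers at every scale.**  (1) For every `d` there are `κ` and `H₀` such that for every
`H ≥ H₀` at most one of the four numbers `π + e`, `π - e`, `π e`, `π / e` is at distance at most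
`H ^ (-κ)` from an algebraic number of degree at most `d` and height at most `H`.  (2) The same,
uniformly, for all complex numbers `t` with `‖t‖ ≤ T` at distance at least `δ` from `0`, `e`, `-e`, in
place of `π`.  (3) Explicit exponents for rational numbers `p / q`, `r / s`, uniformly for the real `t`
of (2), in particular for `t = π`. -/
theorem result :
    (∀ d : ℕ, ∃ κ H₀ : ℝ, ∀ H : ℝ, H₀ ≤ H → (close d κ (Real.pi : ℂ) H).Subsingleton) ∧
    (∀ (d : ℕ) (T δ : ℝ), 0 < δ → ∃ κ H₀ : ℝ, ∀ t : ℂ, ‖t‖ ≤ T → δ ≤ ‖t‖ → δ ≤ ‖t - e‖ →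
      δ ≤ ‖t + e‖ → ∀ H : ℝ, H₀ ≤ H → (close d κ t H).Subsingleton) ∧
    (∀ T δ η : ℝ, 0 < δ → 0 < η → ∃ c : ℝ, 0 < c ∧ ∀ t : ℝ, |t| ≤ T → δ ≤ |t| → δ ≤ |t - e| →
      δ ≤ |t + e| → ∀ (p r : ℤ) (q s : ℕ), 0 < q → 0 < s →
      c * ((q : ℝ) * s) ^ (-(2 + η)) ≤ err (t + e) (t - e) p r q s ∧
      c * ((q : ℝ) * s) ^ (-(2 + η)) ≤ err (t + e) (t / e) p r q s ∧
      c * ((q : ℝ) * s) ^ (-(2 + η)) ≤ err (t - e) (t / e) p r q s ∧
      c * ((q : ℝ) * s) ^ (-(2 + η)) ≤ err (t * e) (t / e) p r q s ∧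
      c * ((q : ℝ) * s) ^ (-(3 + η)) ≤ err (t + e) (t * e) p r q s ∧
      c * ((q : ℝ) * s) ^ (-(3 + η)) ≤ err (t - e) (t * e) p r q s) ∧
    (∀ η : ℝ, 0 < η → ∃ c : ℝ, 0 < c ∧ ∀ (p r : ℤ) (q s : ℕ), 0 < q → 0 < s →
      c * ((q : ℝ) * s) ^ (-(2 + η)) ≤ err (Real.pi + e) (Real.pi - e) p r q s ∧
      c * ((q : ℝ) * s) ^ (-(2 + η)) ≤ err (Real.pi + e) (Real.pi / e) p r q s ∧
      c * ((q : ℝ) * s) ^ (-(2 + η)) ≤ err (Real.pi - e) (Real.pi / e) p r q s ∧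
      c * ((q : ℝ) * s) ^ (-(2 + η)) ≤ err (Real.pi * e) (Real.pi / e) p r q s ∧
      c * ((q : ℝ) * s) ^ (-(3 + η)) ≤ err (Real.pi + e) (Real.pi * e) p r q s ∧
      c * ((q : ℝ) * s) ^ (-(3 + η)) ≤ err (Real.pi - e) (Real.pi * e) p r q s) := by
  have hπ := Real.pi_pos
  have he : 0 < e := Real.exp_pos 1
  have hep := e_lt_pi
  obtain ⟨δ, hδ0, hδ1, hδ2, hδ3⟩ : ∃ δ : ℝ, 0 < δ ∧ δ ≤ Real.pi ∧ δ ≤ Real.pi - e ∧
      δ ≤ Real.pi + e := ⟨Real.pi - e, by linarith, by linarith, le_rfl, by linarith⟩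
  refine ⟨fun d => ?_, fun d T δ hδ => ?_, fun T δ η hδ hη => explicit T δ η hδ hη,
    fun η hη => ?_⟩
  · obtain ⟨κ, H₀, _, h⟩ := uniform d Real.pi δ hδ0
    refine ⟨κ, H₀, h (Real.pi : ℂ) ?_ ?_ ?_ ?_⟩
    · rw [Complex.norm_real, Real.norm_eq_abs, abs_of_pos hπ]
    · rw [Complex.norm_real, Real.norm_eq_abs, abs_of_pos hπ]
      exact hδ1
    · rw [← Complex.ofReal_sub, Complex.norm_real, Real.norm_eq_abs, abs_of_pos (by linarith)]
      exact hδ2
    · rw [← Complex.ofReal_add, Complex.norm_real, Real.norm_eq_abs, abs_of_pos (by linarith)]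
      exact hδ3
  · obtain ⟨κ, H₀, _, h⟩ := uniform d T δ hδ
    exact ⟨κ, H₀, h⟩
  · obtain ⟨c, hc, h⟩ := explicit Real.pi δ η hδ0 hη
    refine ⟨c, hc, h Real.pi ?_ ?_ ?_ ?_⟩
    · rw [abs_of_pos hπ]
    · rw [abs_of_pos hπ]
      exact hδ1
    · rw [abs_of_pos (by linarith)]
      exact hδ2
    · rw [abs_of_pos (by linarith)]
      exact hδ3

end Pool.Agent.Results.MP_a2f59b_nt.EveryScale
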