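import Mathlib
import Pool.Agent.V11015.FS.FourE
import Pool.Agent.H326R2.Pi.Top

/-!
# Finite-state machines cannot predict the digits of two of the numbers `e, π, π ± e, π e, π / e`

A machine with finitely many states reads the digits of a number in some base one after the other and
announces before each digit a guess, which depends on its state only.

At every scale at most one of the six numbers `e, π, π + e, π - e, π e, π / e` can be predicted by a
machine of small size with few errors, whatever the bases are (`e` and `π` cannot be predicted).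
-/

set_option autoImplicit false

namespace Pool.Agent.Results.MP_a2f59b_nt.PredictionSeveralNumbers

open Finset Pool.Agent

/-- the number `e` -/
noncomputable def e : ℝ := Real.exp 1

/-- the `i`-th digit of `x` after the point in base `b` -/
noncomputable def digit (b : ℕ) (x : ℝ) (i : ℕ) : ℤ := ⌊x * (b : ℝ) ^ i⌋ % (b : ℤ)

/-- A machine with the set of states `Q`: the transition function, the guess announced in each
state, and the initial state. -/
structure Machine (Q : Type) where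
  next : Q → ℤ → Q
  guess : Q → ℤ
  start : Q

/-- The state of the machine after it has read the first `i` digits of `x` in base `b`. -/
noncomputable def Machine.state {Q : Type} (M : Machine Q) (b : ℕ) (x : ℝ) : ℕ → Q
  | 0 => M.start
  | i + 1 => M.next (M.state b x i) (digit b x (i + 1))

/-- The number of the wrong guesses for the first `n` digits of `x` in base `b`: the guess for the
digit number `i + 1` is announced when the machine has read the first `i` digits. -/
noncomputable def Machine.errors {Q : Type} (M : Machine Q) (b : ℕ) (x : ℝ) (n : ℕ) : ℕ :=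
  ((range n).filter (fun i => M.guess (M.state b x i) ≠ digit b x (i + 1))).card

/-- the four numbers `t + e`, `t - e`, `t e`, `t / e` -/
noncomputable def four (t : ℝ) : Fin 4 → ℝ := ![t + e, t - e, t * e, t / e]

/-- `6` for the pairs `{t + e, t e}` and `{t - e, t e}`, otherwise `4` -/
noncomputable def base (i j : Fin 4) : ℝ :=
  if (i = 2 ∧ (j = 0 ∨ j = 1)) ∨ (j = 2 ∧ (i = 0 ∨ i = 1)) then 6 else 4

/-- In some base `b` some machine with `S` states, `S log b ≤ σ`, makes less than `E` errors on the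
first `N` digits of `x` for some `N` with `N log b ≥ Λ`. -/
def Predicted (x Λ σ E : ℝ) : Prop :=
  ∃ (b : ℕ) (Q : Type) (_ : Fintype Q) (M : Machine Q) (N : ℕ), 2 ≤ b ∧ Λ ≤ N * Real.log b ∧
    Fintype.card Q * Real.log b ≤ σ ∧ (M.errors b x N : ℝ) < E

/-- the six numbers `e, π` and `π + e, π - e, π e, π / e` -/
noncomputable def six : Fin 2 ⊕ Fin 4 → ℝ := Sum.elim ![e, Real.pi] (four Real.pi)

theorem state_eq {Q : Type} (M : Machine Q) (b : ℕ) (x : ℝ) (i : ℕ) :
    M.state b x i = V60.FSP.st M.next (V60.FSP.dg b x) M.start 0 i := by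
  induction i with
  | zero => rfl
  | succ i ih =>
    rw [V60.FSP.st_step, ← ih, Nat.zero_add]
    rfl

theorem errors_eq {Q : Type} [Fintype Q] (M : Machine Q) (b : ℕ) (x : ℝ) (n : ℕ) :
    M.errors b x n = V60.FSP.err M.next M.guess (V60.FSP.dg b x) M.start 0 n := by
  unfold Machine.errors V60.FSP.err
  congr 1
  apply Finset.filter_congr
  intro i _
  rw [state_eq, Nat.zero_add]
  rfl

/-- the sum of the errors of the approximations `p / q` to `x` and `r / s` to `y` -/
noncomputable def err (x y : ℝ) (p r : ℤ) (q s : ℕ) : ℝ := |x - (p : ℝ) / q| + |y - (r : ℝ) / s|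

open Pool.Agent.V11210.EP in
lemma explicit (T δ η : ℝ) (hδ : 0 < δ) (hη : 0 < η) : ∃ c : ℝ, 0 < c ∧ ∀ t : ℝ, |t| ≤ T →
    δ ≤ |t| → δ ≤ |t - e| → δ ≤ |t + e| → ∀ (p r : ℤ) (q s : ℕ), 0 < q → 0 < s →
      c * ((q : ℝ) * s) ^ (-(2 + η)) ≤ err (t + e) (t - e) p r q s ∧
      c * ((q : ℝ) * s) ^ (-(2 + η)) ≤ err (t + e) (t / e) p r q s ∧
      c * ((q : ℝ) * s) ^ (-(2 + η)) ≤ err (t - e) (t / e) p r q s ∧
      c * ((q : ℝ) * s) ^ (-(2 + η)) ≤ err (t * e) (t / e) p r q s ∧
      c * ((q : ℝ) * s) ^ (-(3 + η)) ≤ err (t + e) (t * e) p r q s ∧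
      c * ((q : ℝ) * s) ^ (-(3 + η)) ≤ err (t - e) (t * e) p r q s := by
  obtain ⟨E, hE⟩ : ∃ E : ℝ, E = e := ⟨_, rfl⟩
  have hE1 : 1 ≤ E := by rw [hE]; exact exp_one_ge
  obtain ⟨T', hT'⟩ : ∃ T' : ℝ, T' = (|T| + 1) * (E + 1) := ⟨_, rfl⟩
  have hT'0 : 0 ≤ T' := by rw [hT']; positivity
  have hTa := abs_nonneg T
  obtain ⟨c1, hc1, h1⟩ := r01 T' η hT'0 hη
  obtain ⟨c2, hc2, h2⟩ := r3s T' δ η 1 (by simp) hT'0 hδ hη
  obtain ⟨c3, hc3, h3⟩ := r3s T' δ η (-1) (by simp) hT'0 hδ hη
  obtain ⟨c4, hc4, h4⟩ := r32 T' δ η hT'0 hδ hη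
  obtain ⟨c5, hc5, h5⟩ := r02 T' η hT'0 hη
  obtain ⟨c6, hc6, h6⟩ := r12 T' η hT'0 hη
  refine ⟨min (min (min c1 c2) (min c3 c4)) (min c5 c6), by
    simp only [lt_min_iff]
    exact ⟨⟨⟨hc1, hc2⟩, hc3, hc4⟩, hc5, hc6⟩, ?_⟩
  intro t hT h0 hm hp p r q s hq hs
  have hTt : |t| ≤ |T| := hT.trans (le_abs_self T)
  have n1 : |t + Real.exp 1| ≤ T' := by
    refine (abs_add_le _ _).trans ?_
    rw [abs_of_pos (Real.exp_pos 1), hT']
    have : Real.exp 1 = E := hE.symm
    rw [this]
    nlinarith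
  have n2 : |t - Real.exp 1| ≤ T' := by
    refine (abs_sub _ _).trans ?_
    rw [abs_of_pos (Real.exp_pos 1), hT']
    have : Real.exp 1 = E := hE.symm
    rw [this]
    nlinarith
  have n3 : |t * Real.exp 1| ≤ T' := by
    rw [abs_mul, abs_of_pos (Real.exp_pos 1), hT']
    have : Real.exp 1 = E := hE.symm
    rw [this]
    nlinarith [abs_nonneg t]
  have n4 : |t / Real.exp 1| ≤ T' := by
    rw [abs_div, abs_of_pos (Real.exp_pos 1), hT']
    have h7 : Real.exp 1 = E := hE.symm
    rw [h7]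
    calc |t| / E ≤ |t| / 1 := by gcongr
      _ ≤ _ := by
          rw [div_one]
          nlinarith
  have n5 : δ ≤ |t * Real.exp 1| := by
    rw [abs_mul, abs_of_pos (Real.exp_pos 1)]
    have h7 : Real.exp 1 = E := hE.symm
    rw [h7]
    nlinarith
  have hn : (0 : ℝ) ≤ ((q : ℝ) * s) ^ (-(2 + η)) := by positivity
  have hn' : (0 : ℝ) ≤ ((q : ℝ) * s) ^ (-(3 + η)) := by positivity
  refine ⟨?_, ?_, ?_, ?_, ?_, ?_⟩
  · refine le_trans (mul_le_mul_of_nonneg_right ?_ hn) (h1 t n1 n2 p r q s hq hs)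
    simp
  · have h := h2 t (by push_cast; rw [one_mul]; exact n1) n4 (by push_cast; rw [one_mul]; exact hp)
      p r q s hq hs
    push_cast at h
    rw [one_mul] at h
    refine le_trans (mul_le_mul_of_nonneg_right ?_ hn) h
    simp
  · have e1 : t + ((-1 : ℤ) : ℝ) * Real.exp 1 = t - Real.exp 1 := by push_cast; ring
    have h := h3 t (by rw [e1]; exact n2) n4 (by rw [e1]; exact hm) p r q s hq hs
    rw [e1] at h
    refine le_trans (mul_le_mul_of_nonneg_right ?_ hn) h
    simp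
  · refine le_trans (mul_le_mul_of_nonneg_right ?_ hn) (h4 t n3 n4 n5 p r q s hq hs)
    simp
  · refine le_trans (mul_le_mul_of_nonneg_right ?_ hn') (h5 t n1 n3 p r q s hq hs)
    simp
  · refine le_trans (mul_le_mul_of_nonneg_right ?_ hn') (h6 t n2 n3 p r q s hq hs)
    simp

/-- a bound for the errors on two numbers -/
def Bound (x y μ C : ℝ) : Prop := ∀ b d : ℕ, 2 ≤ b → 2 ≤ d →
  ∀ (Q Q' : Type) [Fintype Q] [Fintype Q'] (M : Machine Q) (M' : Machine Q') (N N' : ℕ),
    1 ≤ N → 1 ≤ N' →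
    (Real.log (min (N * Real.log b) (N' * Real.log d)) -
      Real.log (Fintype.card Q * Real.log b + Fintype.card Q' * Real.log d)) / Real.log μ - C ≤
      (M.errors b x N + M'.errors d y N' : ℝ)

theorem Bound.symm {x y μ C : ℝ} (h : Bound x y μ C) : Bound y x μ C := by
  intro b d hb hd Q Q' _ _ M M' N N' hN hN'
  have h1 := h d b hd hb Q' Q M' M N' N hN' hN
  rw [min_comm, add_comm (_ * Real.log (d : ℝ)), add_comm (M'.errors d x N' : ℝ)] at h1
  exact h1

theorem Bound.mono {x y μ C C' : ℝ} (h : Bound x y μ C) (hC : C ≤ C') : Bound x y μ C' := by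
  intro b d hb hd Q Q' _ _ M M' N N' hN hN'
  have := h b d hb hd Q Q' M M' N N' hN hN'
  linarith

theorem bound_of_err (μ κ c : ℝ) (hκ : 1 < 2 * κ) (hμ : μ = 2 * κ) (hc : 0 < c) :
    ∃ C : ℝ, 0 ≤ C ∧ ∀ x y : ℝ,
    (∀ (p r : ℤ) (q s : ℕ), 0 < q → 0 < s → c * ((q : ℝ) * s) ^ (-κ) ≤ err x y p r q s) →
    Bound x y μ C := by
  obtain ⟨C, hC, h⟩ := V11015.FS.two_of_sum κ c hκ hc
  refine ⟨C, hC, fun x y hxy b d hb hd Q Q' _ _ M M' N N' hN hN' => ?_⟩
  rw [errors_eq, errors_eq, hμ]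
  exact h x y hxy b d hb hd Q Q' M.next M.guess M.start M'.next M'.guess M'.start N N' hN hN'

/-- all pairs -/
theorem all_pairs (T δ η : ℝ) (hδ : 0 < δ) (hη : 0 < η) : ∃ C : ℝ, 0 ≤ C ∧ ∀ t : ℝ, |t| ≤ T →
    δ ≤ |t| → δ ≤ |t - e| → δ ≤ |t + e| → ∀ i j : Fin 4, i ≠ j →
    Bound (four t i) (four t j) (base i j + η) C := by
  obtain ⟨c, hc, h⟩ := explicit T δ (η / 2) hδ (by positivity)
  obtain ⟨C1, hC1, h1⟩ := bound_of_err (4 + η) (2 + η / 2) c (by linarith) (by ring) hc
  obtain ⟨C2, hC2, h2⟩ := bound_of_err (6 + η) (3 + η / 2) c (by linarith) (by ring) hc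
  refine ⟨max C1 C2, hC1.trans (le_max_left _ _), fun t ht h0 hm hp i j hij => ?_⟩
  have g := h t ht h0 hm hp
  have b01 : Bound (t + e) (t - e) (4 + η) (max C1 C2) :=
    (h1 _ _ (fun p r q s hq hs => (g p r q s hq hs).1)).mono (le_max_left _ _)
  have b03 : Bound (t + e) (t / e) (4 + η) (max C1 C2) :=
    (h1 _ _ (fun p r q s hq hs => (g p r q s hq hs).2.1)).mono (le_max_left _ _)
  have b13 : Bound (t - e) (t / e) (4 + η) (max C1 C2) :=
    (h1 _ _ (fun p r q s hq hs => (g p r q s hq hs).2.2.1)).mono (le_max_left _ _)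
  have b23 : Bound (t * e) (t / e) (4 + η) (max C1 C2) :=
    (h1 _ _ (fun p r q s hq hs => (g p r q s hq hs).2.2.2.1)).mono (le_max_left _ _)
  have b02 : Bound (t + e) (t * e) (6 + η) (max C1 C2) :=
    (h2 _ _ (fun p r q s hq hs => (g p r q s hq hs).2.2.2.2.1)).mono (le_max_right _ _)
  have b12 : Bound (t - e) (t * e) (6 + η) (max C1 C2) :=
    (h2 _ _ (fun p r q s hq hs => (g p r q s hq hs).2.2.2.2.2)).mono (le_max_right _ _)
  fin_cases i <;> fin_cases j
  · exact absurd rfl hij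
  · exact b01
  · exact b02
  · exact b03
  · exact b01.symm
  · exact absurd rfl hij
  · exact b12
  · exact b13
  · exact b02.symm
  · exact b12.symm
  · exact absurd rfl hij
  · exact b23
  · exact b03.symm
  · exact b13.symm
  · exact b23.symm
  · exact absurd rfl hij

/-- a bound for the errors on one number -/
def Single (x ρ C : ℝ) : Prop := ∀ b : ℕ, 2 ≤ b → ∀ (Q : Type) [Fintype Q] (M : Machine Q) (N : ℕ),
  1 ≤ N → (Real.log (N * Real.log b) - Real.log (Fintype.card Q * Real.log b)) / Real.log ρ - C ≤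
    (M.errors b x N : ℝ)

theorem single_of_bad (κ c : ℝ) (hκ : 0 < κ) (hc : 0 < c) : ∃ C : ℝ, 0 ≤ C ∧ ∀ x : ℝ,
    (∀ q : ℕ, 1 ≤ q → ∀ p : ℤ, c * (q : ℝ) ^ (-κ) ≤ |q * x - p|) → Single x (1 + κ) C := by
  obtain ⟨C, hC, h⟩ := V11015.FS.one_scale κ c hκ hc
  refine ⟨C, hC, fun x hx b hb Q _ M N hN => ?_⟩
  rw [errors_eq]
  exact h x hx b hb Q M.next M.guess M.start N hN

/-- small denominators -/
theorem small_den (x : ℝ) (hx : Irrational x) (n : ℕ) :
    ∃ c : ℝ, 0 < c ∧ ∀ q : ℕ, 1 ≤ q → q < n → ∀ p : ℤ, c ≤ |q * x - p| := by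
  induction n with
  | zero => exact ⟨1, one_pos, fun q _ h => absurd h (Nat.not_lt_zero q)⟩
  | succ n ih =>
    obtain ⟨c, hc, h⟩ := ih
    rcases Nat.eq_zero_or_pos n with hn | hn
    · exact ⟨1, one_pos, fun q h1 h2 => by omega⟩
    · have hirr : Irrational ((n : ℝ) * x) := hx.natCast_mul (by omega)
      have hpos : 0 < |(n : ℝ) * x - round ((n : ℝ) * x)| := by
        rw [abs_pos, sub_ne_zero]
        exact hirr.ne_int _
      refine ⟨min c |(n : ℝ) * x - round ((n : ℝ) * x)|, lt_min hc hpos, fun q h1 h2 p => ?_⟩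
      rcases Nat.lt_succ_iff_lt_or_eq.1 h2 with h3 | h3
      · exact (min_le_left _ _).trans (h q h1 h3 p)
      · rw [h3]
        exact (min_le_right _ _).trans (round_le _ _)

theorem pi_bad : ∃ c : ℝ, 0 < c ∧ ∀ q : ℕ, 1 ≤ q → ∀ p : ℤ,
    c * (q : ℝ) ^ (-(5.05 : ℝ)) ≤ |q * Real.pi - p| := by
  obtain ⟨q0, hq0⟩ := Pool.Agent.H326R2.Pi.main
  obtain ⟨c, hc, hsm⟩ := small_den Real.pi irrational_pi q0
  refine ⟨min c 1, lt_min hc one_pos, fun q hq p => ?_⟩
  have hqR : (1 : ℝ) ≤ q := by exact_mod_cast hq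
  have hq0R : (0 : ℝ) < q := by linarith
  rcases lt_or_ge q q0 with h | h
  · have h1 : (q : ℝ) ^ (-(5.05 : ℝ)) ≤ 1 := Real.rpow_le_one_of_one_le_of_nonpos hqR (by norm_num)
    have h2 := hsm q hq h p
    have h3 : min c 1 * (q : ℝ) ^ (-(5.05 : ℝ)) ≤ min c 1 * 1 :=
      mul_le_mul_of_nonneg_left h1 (lt_min hc one_pos).le
    have h4 := min_le_left c 1
    linarith
  · have h1 := hq0 q h p
    have e1 : |Real.pi - p / q| = |q * Real.pi - p| / q := by
      rw [← abs_of_pos hq0R, ← abs_div, abs_of_pos hq0R]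
      congr 1
      field_simp
    rw [e1, le_div_iff₀ hq0R] at h1
    have e2 : (q : ℝ) ^ (-(6.05 : ℝ)) * q = (q : ℝ) ^ (-(5.05 : ℝ)) := by
      rw [show (-(5.05 : ℝ)) = -(6.05 : ℝ) + 1 by norm_num, Real.rpow_add hq0R, Real.rpow_one]
    rw [e2] at h1
    have h2 : 0 ≤ (q : ℝ) ^ (-(5.05 : ℝ)) := by positivity
    have h4 := min_le_right c 1
    nlinarith

/-- the threshold -/
noncomputable def thr (Λ σ μ C : ℝ) : ℝ := ((Real.log Λ - Real.log (2 * σ)) / Real.log μ - C) / 2

theorem pos_of_predicted {x Λ σ μ C : ℝ} (hμ : 1 < μ) (hC : 0 ≤ C)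
    (h : Predicted x Λ σ (thr Λ σ μ C)) : 0 < Real.log Λ - Real.log (2 * σ) := by
  obtain ⟨b, Q, _, M, N, _, _, _, h1⟩ := h
  have h2 : (0 : ℝ) ≤ (M.errors b x N : ℝ) := Nat.cast_nonneg _
  unfold thr at h1
  have h3 : 0 < (Real.log Λ - Real.log (2 * σ)) / Real.log μ := by linarith
  have hl := Real.log_pos hμ
  by_contra hcon
  push Not at hcon
  have := div_nonpos_of_nonpos_of_nonneg hcon hl.le
  linarith

theorem not_predicted {x Λ σ μ C ρ C0 : ℝ} (hΛ : 0 < Λ) (hμ : 1 < μ) (hρ : 1 < ρ)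
    (hρμ : ρ ≤ μ ^ 2) (hC0 : 0 ≤ C0) (hC : 2 * C0 ≤ C) (hs : Single x ρ C0) :
    ¬ Predicted x Λ σ (thr Λ σ μ C) := by
  intro hp
  have hX := pos_of_predicted hμ (by linarith) hp
  obtain ⟨b, Q, inst, M, N, hb, hN, hS, hM⟩ := hp
  have hlb := V11015.FS.log_base_pos hb
  have hN1 : 1 ≤ N := by
    rcases Nat.eq_zero_or_pos N with h | h
    · rw [h, Nat.cast_zero, zero_mul] at hN
      linarith
    · exact h
  have : Nonempty Q := ⟨M.start⟩
  have hSp : (0 : ℝ) < Fintype.card Q := by exact_mod_cast Fintype.card_pos (α := Q)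
  have h1 := hs b hb Q M N hN1
  have hσ : 0 < σ := (mul_pos hSp hlb).trans_le hS
  have h2 : Real.log Λ ≤ Real.log (N * Real.log b) := Real.log_le_log hΛ hN
  have h3 : Real.log (Fintype.card Q * Real.log b) ≤ Real.log (2 * σ) :=
    Real.log_le_log (mul_pos hSp hlb) (by linarith)
  have hlμ := Real.log_pos hμ
  have hlρ := Real.log_pos hρ
  have h4 : Real.log ρ ≤ 2 * Real.log μ := by
    have := Real.log_le_log (by linarith) hρμ
    rw [Real.log_pow] at this
    exact_mod_cast this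
  have h5 : (Real.log Λ - Real.log (2 * σ)) / (2 * Real.log μ) ≤
      (Real.log Λ - Real.log (2 * σ)) / Real.log ρ := div_le_div_of_nonneg_left hX.le hlρ h4
  have h6 : (Real.log Λ - Real.log (2 * σ)) / Real.log ρ ≤
      (Real.log (N * Real.log b) - Real.log (Fintype.card Q * Real.log b)) / Real.log ρ :=
    div_le_div_of_nonneg_right (by linarith) hlρ.le
  have h7 : (Real.log Λ - Real.log (2 * σ)) / (2 * Real.log μ) =
      (Real.log Λ - Real.log (2 * σ)) / Real.log μ / 2 := by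
    field_simp
  unfold thr at hM
  linarith

theorem not_both {x y Λ σ μ ν C C0 : ℝ} (hΛ : 0 < Λ) (hμ : 1 < μ) (hν : 1 < ν) (hνμ : ν ≤ μ)
    (hC0 : 0 ≤ C0) (hC : C0 ≤ C) (hs : Bound x y ν C0) (hp : Predicted x Λ σ (thr Λ σ μ C))
    (hq : Predicted y Λ σ (thr Λ σ μ C)) : False := by
  have hX := pos_of_predicted hμ (by linarith) hp
  obtain ⟨b, Q, inst, M, N, hb, hN, hS, hM⟩ := hp
  obtain ⟨d, Q', inst', M', N', hd, hN', hS', hM'⟩ := hq
  have hlb := V11015.FS.log_base_pos hb
  have hld := V11015.FS.log_base_pos hd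
  have hN1 : 1 ≤ N := by
    rcases Nat.eq_zero_or_pos N with h | h
    · rw [h, Nat.cast_zero, zero_mul] at hN
      linarith
    · exact h
  have hN1' : 1 ≤ N' := by
    rcases Nat.eq_zero_or_pos N' with h | h
    · rw [h, Nat.cast_zero, zero_mul] at hN'
      linarith
    · exact h
  have : Nonempty Q := ⟨M.start⟩
  have hSp : (0 : ℝ) < Fintype.card Q := by exact_mod_cast Fintype.card_pos (α := Q)
  have hSp' : (0 : ℝ) ≤ Fintype.card Q' := Nat.cast_nonneg _
  have h1 := hs b d hb hd Q Q' M M' N N' hN1 hN1'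
  have h2 : Real.log Λ ≤ Real.log (min (N * Real.log b) (N' * Real.log d)) :=
    Real.log_le_log hΛ (le_min hN hN')
  have h3 : Real.log (Fintype.card Q * Real.log b + Fintype.card Q' * Real.log d) ≤
      Real.log (2 * σ) := by
    apply Real.log_le_log
    · have := mul_nonneg hSp' hld.le
      have := mul_pos hSp hlb
      linarith
    · linarith
  have hlμ := Real.log_pos hμ
  have hlν := Real.log_pos hν
  have h4 : Real.log ν ≤ Real.log μ := Real.log_le_log (by linarith) hνμ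
  have h5 : (Real.log Λ - Real.log (2 * σ)) / Real.log μ ≤
      (Real.log Λ - Real.log (2 * σ)) / Real.log ν := div_le_div_of_nonneg_left hX.le hlν h4
  have h6 : (Real.log Λ - Real.log (2 * σ)) / Real.log ν ≤
      (Real.log (min (N * Real.log b) (N' * Real.log d)) -
      Real.log (Fintype.card Q * Real.log b + Fintype.card Q' * Real.log d)) / Real.log ν :=
    div_le_div_of_nonneg_right (by linarith) hlν.le
  unfold thr at hM hM'
  linarith

theorem e_lt_pi : e < Real.pi := by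
  have h1 := Real.exp_one_lt_d9
  have h2 := Real.pi_gt_three
  unfold e
  linarith

/-- **Prediction of the digits of `e, π, π + e, π - e, π e, π / e` by finite-state machines.**
(1) Let `T, δ, η > 0`. There is a constant `C` such that for all real `t` with `|t| ≤ T` and
`|t|, |t - e|, |t + e| ≥ δ` and any two of the numbers `t + e, t - e, t e, t / e`, machines with `S`
and `S'` states which read the one in base `b` and the other one in base `d` make on the first `N` and
`N'` digits together at least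
`(log min (N log b, N' log d) - log (S log b + S' log d)) / log (μ + η) - C`
wrong guesses, `μ = 6` for `{t + e, t e}`, `{t - e, t e}`, and `μ = 4` for the other pairs.
(2) For every `η > 0` there is `C` such that for all `Λ, σ > 0` at most one of the six numbers
`e, π, π + e, π - e, π e, π / e` is predicted, in some base `b`, up to some place `N` with
`N log b ≥ Λ`, by a machine with `S` states, `S log b ≤ σ`, with less than half of
`(log Λ - log (2 σ)) / log (6 + η) - C` errors.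
(3) The same for the five numbers other than `π e`, with `4 + η`. -/
theorem result :
    (∀ T δ η : ℝ, 0 < δ → 0 < η → ∃ C : ℝ, ∀ t : ℝ, |t| ≤ T → δ ≤ |t| → δ ≤ |t - e| → δ ≤ |t + e| →
      ∀ i j : Fin 4, i ≠ j → ∀ b d : ℕ, 2 ≤ b → 2 ≤ d →
      ∀ (Q Q' : Type) [Fintype Q] [Fintype Q'] (M : Machine Q) (M' : Machine Q') (N N' : ℕ),
      1 ≤ N → 1 ≤ N' →
      (Real.log (min (N * Real.log b) (N' * Real.log d)) -
        Real.log (Fintype.card Q * Real.log b + Fintype.card Q' * Real.log d)) /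
        Real.log (base i j + η) - C ≤
        (M.errors b (four t i) N + M'.errors d (four t j) N' : ℝ)) ∧
    (∀ η : ℝ, 0 < η → ∃ C : ℝ, ∀ Λ σ : ℝ, 0 < Λ → 0 < σ →
      {k : Fin 2 ⊕ Fin 4 | Predicted (six k) Λ σ
        (((Real.log Λ - Real.log (2 * σ)) / Real.log (6 + η) - C) / 2)}.Subsingleton) ∧
    (∀ η : ℝ, 0 < η → ∃ C : ℝ, ∀ Λ σ : ℝ, 0 < Λ → 0 < σ →
      {k : Fin 2 ⊕ Fin 4 | k ≠ Sum.inr 2 ∧ Predicted (six k) Λ σ
        (((Real.log Λ - Real.log (2 * σ)) / Real.log (4 + η) - C) / 2)}.Subsingleton) := by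
  have hpi := Real.pi_gt_three
  have hep := e_lt_pi
  have he0 : 0 < e := Real.exp_pos 1
  obtain ⟨c0, hc0, hpib⟩ := pi_bad
  obtain ⟨Cp, hCp, hsp⟩ := single_of_bad 5.05 c0 (by norm_num) hc0
  obtain ⟨c1, hc1, heb⟩ := V11015.FS.e_bad 1 one_pos
  obtain ⟨Ce, hCe, hse⟩ := single_of_bad (1 + 1) c1 (by norm_num) hc1
  have hsP := hsp Real.pi hpib
  have hsE := hse (Real.exp 1) heb
  refine ⟨fun T δ η hδ hη => ?_, fun η hη => ?_, fun η hη => ?_⟩
  · obtain ⟨C, _, h⟩ := all_pairs T δ η hδ hη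
    exact ⟨C, h⟩
  · obtain ⟨C1, hC1, h⟩ := all_pairs Real.pi (Real.pi - e) η (by linarith) hη
    have hb := h Real.pi (by rw [abs_of_pos Real.pi_pos]) (by rw [abs_of_pos Real.pi_pos]; linarith)
      (le_abs_self _) (by rw [abs_of_pos (by positivity)]; linarith)
    refine ⟨C1 + 2 * Cp + 2 * Ce, fun Λ σ hΛ hσ k hk l hl => ?_⟩
    change Predicted _ _ _ (thr Λ σ (6 + η) (C1 + 2 * Cp + 2 * Ce)) at hk
    change Predicted _ _ _ (thr Λ σ (6 + η) (C1 + 2 * Cp + 2 * Ce)) at hl
    have hone : ∀ i : Fin 2, ¬ Predicted (six (Sum.inl i)) Λ σ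
        (thr Λ σ (6 + η) (C1 + 2 * Cp + 2 * Ce)) := by
      intro i
      fin_cases i
      · exact not_predicted hΛ (by linarith) (by norm_num) (by nlinarith) hCe (by linarith) hsE
      · exact not_predicted hΛ (by linarith) (by norm_num) (by nlinarith) hCp (by linarith) hsP
    rcases k with k | k
    · exact absurd hk (hone k)
    rcases l with l | l
    · exact absurd hl (hone l)
    by_contra hne
    have hkl : k ≠ l := fun h' => hne (by rw [h'])
    have hbase : base k l = 6 ∨ base k l = 4 := by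
      unfold base
      split_ifs
      · exact Or.inl rfl
      · exact Or.inr rfl
    refine not_both (ν := base k l + η) hΛ (by linarith) ?_ ?_ hC1 (by linarith) (hb k l hkl) hk hl
    · rcases hbase with h' | h' <;> rw [h'] <;> linarith
    · rcases hbase with h' | h' <;> rw [h'] <;> linarith
  · obtain ⟨C1, hC1, h⟩ := all_pairs Real.pi (Real.pi - e) η (by linarith) hη
    have hb := h Real.pi (by rw [abs_of_pos Real.pi_pos]) (by rw [abs_of_pos Real.pi_pos]; linarith)
      (le_abs_self _) (by rw [abs_of_pos (by positivity)]; linarith)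
    refine ⟨C1 + 2 * Cp + 2 * Ce, fun Λ σ hΛ hσ k hk l hl => ?_⟩
    obtain ⟨hk2, hk⟩ := hk
    obtain ⟨hl2, hl⟩ := hl
    change Predicted _ _ _ (thr Λ σ (4 + η) (C1 + 2 * Cp + 2 * Ce)) at hk
    change Predicted _ _ _ (thr Λ σ (4 + η) (C1 + 2 * Cp + 2 * Ce)) at hl
    have hone : ∀ i : Fin 2, ¬ Predicted (six (Sum.inl i)) Λ σ
        (thr Λ σ (4 + η) (C1 + 2 * Cp + 2 * Ce)) := by
      intro i
      fin_cases i
      · exact not_predicted hΛ (by linarith) (by norm_num) (by nlinarith) hCe (by linarith) hsE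
      · exact not_predicted hΛ (by linarith) (by norm_num) (by nlinarith) hCp (by linarith) hsP
    rcases k with k | k
    · exact absurd hk (hone k)
    rcases l with l | l
    · exact absurd hl (hone l)
    by_contra hne
    have hkl : k ≠ l := fun h' => hne (by rw [h'])
    have hk3 : k ≠ 2 := fun h' => hk2 (by rw [h'])
    have hl3 : l ≠ 2 := fun h' => hl2 (by rw [h'])
    have hbase : base k l = 4 := by
      unfold base
      rw [if_neg]
      rintro (⟨h', _⟩ | ⟨h', _⟩)
      · exact hk3 h'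
      · exact hl3 h'
    refine not_both (ν := base k l + η) hΛ (by linarith) ?_ ?_ hC1 (by linarith) (hb k l hkl) hk hl
    · rw [hbase]; linarith
    · rw [hbase]

end Pool.Agent.Results.MP_a2f59b_nt.PredictionSeveralNumbers
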