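import Pool.Agent.V11252.NP.Twelve
import Pool.Agent.Results.MP_a2f59b_nt.AtLeastSix

set_option autoImplicit false

/-!
# MP_a2f59b_nt: the nine numbers together with `e ^ (π e)`, `α ^ e`, `α ^ π`

`LogForms` is the space of all linear combinations, with algebraic coefficients, of `1` and of
logarithms of algebraic numbers; `InP t` says that `t > 0` and `log t ∈ LogForms`, i.e.
`t = e ^ γ α₁ ^ β₁ ⋯ αₖ ^ βₖ` with algebraic `γ`, `αᵢ`, `βᵢ`.  A positive number without this
property is transcendental.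
-/

namespace Pool.Agent.Results.MP_a2f59b_nt.SevenOfTwelve

open Real

/-- The linear combinations, with algebraic coefficients, of `1` and of logarithms of algebraic
numbers. -/
noncomputable def LogForms : Submodule (algebraicClosure ℚ ℂ) ℂ :=
  Submodule.span (algebraicClosure ℚ ℂ) ({1} ∪ {z : ℂ | IsAlgebraic ℚ (Complex.exp z)})

/-- `t > 0` and `log t` is in `LogForms`. -/
def InP (t : ℝ) : Prop := 0 < t ∧ ((Real.log t : ℝ) : ℂ) ∈ LogForms

/-- the nine numbers of the problem and `e ^ (π e)`, `α ^ e`, `α ^ π` -/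
noncomputable def twelve (α : ℝ) : Fin 12 → ℝ :=
  ![π + exp 1, π - exp 1, π * exp 1, π / exp 1, π ^ π, exp 1 ^ exp 1, π ^ exp 1, π ^ √2,
    exp 1 ^ (π ^ 2), exp 1 ^ (π * exp 1), α ^ exp 1, α ^ π]

/-- sets of indices of numbers which are not all algebraic -/
def sets : List (List (Fin 12)) :=
  [[0, 1], [0, 2], [0, 3], [1, 2], [1, 3], [2, 3], [0, 5], [1, 5], [3, 5], [2, 7], [3, 7],
    [2, 4, 5], [2, 4, 6], [2, 4, 8], [2, 5, 6], [2, 5, 8], [2, 6, 8], [3, 4, 8], [3, 6, 8],
    [4, 7, 8], [0, 4, 6, 8], [1, 4, 6, 8], [0, 6, 7, 8], [1, 6, 7, 8], [4, 5, 6, 7],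
    [0, 8], [1, 8], [2, 8], [3, 8],
    [5, 8, 9], [0, 4, 6, 9], [1, 4, 6, 9], [0, 9, 10], [1, 9, 10], [3, 9, 10], [8, 11],
    [4, 7, 11], [5, 10, 11]]

/-- the number of `true` among the entries with index in the list -/
def cnt (l : List (Fin 12)) (b : Fin 12 → Bool) : ℕ := (l.filter b).length

/-- the combinatorial test -/
def test (b : Fin 12 → Bool) : Bool :=
  (sets.any fun S => S.all b) ||
    (decide (cnt [0, 1, 2, 3, 4, 5, 6, 7, 8, 9, 10, 11] b ≤ 5) &&
      decide (cnt [0, 1, 2, 3, 4, 5, 6, 7, 8, 9] b ≤ 4) &&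
      decide (cnt [0, 1, 2, 3, 4, 5, 6, 7, 8, 11] b ≤ 4))

set_option maxRecDepth 100000 in
theorem comb : ∀ b0 b1 b2 b3 b4 b5 b6 b7 b8 b9 b10 b11 : Bool,
    test ![b0, b1, b2, b3, b4, b5, b6, b7, b8, b9, b10, b11] = true := by
  decide +kernel

open Pool.Agent.V11252.NP Pool.Agent.Y920.NineBW Pool.Agent.H301R2.Nine in
theorem main {α : ℝ} (hα : 0 < α) (ha : IsAlgebraic ℚ α) (h1 : α ≠ 1) (S : List (Fin 12))
    (hS : S ∈ sets) (h : ∀ i ∈ S, IsAlgebraic ℚ (twelve α i)) : False := by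
  have base : ∀ T : List (Fin 9), T ∈ AtLeastSix.sets → T.map (Fin.castLE (by norm_num)) = S →
      False := by
    intro T hT hTS
    refine AtLeastSix.main T hT fun i hi => ?_
    have h2 := h (Fin.castLE (by norm_num) i) (by
      rw [← hTS]
      exact List.mem_map_of_mem hi)
    have h3 : twelve α (Fin.castLE (by norm_num) i) = AtLeastSix.nine i := by
      fin_cases i <;> rfl
    rw [h3] at h2
    exact h2
  have e9 : twelve α 9 = exp (π * exp 1) := by
    change exp 1 ^ (π * exp 1) = _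
    rw [Real.exp_one_rpow]
  have e8 : twelve α 8 = exp (π ^ 2) := by
    change exp 1 ^ (π ^ 2) = _
    rw [Real.exp_one_rpow]
  have e5 : twelve α 5 = exp (exp 1) := by
    change exp 1 ^ exp 1 = _
    rw [Real.exp_one_rpow]
  have e4 : twelve α 4 = exp (π * L) := by
    change π ^ π = _
    rw [Real.rpow_def_of_pos Real.pi_pos, mul_comm]
    rfl
  have e6 : twelve α 6 = exp (exp 1 * L) := by
    change π ^ exp 1 = _
    rw [Real.rpow_def_of_pos Real.pi_pos, mul_comm]
    rfl
  have e7 : twelve α 7 = exp (√2 * L) := by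
    change π ^ √2 = _
    rw [Real.rpow_def_of_pos Real.pi_pos, mul_comm]
    rfl
  have toP : ∀ {t : ℝ}, 0 < t → IsAlgebraic ℚ t → Pool.Agent.V11252.NP.InP t := fun ht h =>
    inP_alg ht h
  have hrpow : ∀ x : ℝ, 0 < α ^ x := fun x => Real.rpow_pos_of_pos hα x
  simp only [sets, List.mem_cons, List.not_mem_nil, or_false] at hS
  have hmul : IsAlgebraic ℚ (exp (π * L)) → IsAlgebraic ℚ (exp (exp 1 * L)) →
      IsAlgebraic ℚ (exp ((π + exp 1) * L)) := by
    intro k1 k2
    rw [add_mul, Real.exp_add]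
    exact k1.mul k2
  have hdiv : IsAlgebraic ℚ (exp (π * L)) → IsAlgebraic ℚ (exp (exp 1 * L)) →
      IsAlgebraic ℚ (exp (-(π - exp 1) * L)) := by
    intro k1 k2
    rw [show -(π - exp 1) * L = exp 1 * L - π * L by ring, Real.exp_sub, div_eq_mul_inv]
    exact k2.mul k1.inv
  rcases hS with rfl | rfl | rfl | rfl | rfl | rfl | rfl | rfl | rfl | rfl | rfl | rfl | rfl |
    rfl | rfl | rfl | rfl | rfl | rfl | rfl | rfl | rfl | rfl | rfl | rfl | rfl | rfl | rfl |
    rfl | rfl | rfl | rfl | rfl | rfl | rfl | rfl | rfl | rfl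
  · exact base [0, 1] (by decide) rfl
  · exact base [0, 2] (by decide) rfl
  · exact base [0, 3] (by decide) rfl
  · exact base [1, 2] (by decide) rfl
  · exact base [1, 3] (by decide) rfl
  · exact base [2, 3] (by decide) rfl
  · exact base [0, 5] (by decide) rfl
  · exact base [1, 5] (by decide) rfl
  · exact base [3, 5] (by decide) rfl
  · exact base [2, 7] (by decide) rfl
  · exact base [3, 7] (by decide) rfl
  · exact base [2, 4, 5] (by decide) rfl
  · exact base [2, 4, 6] (by decide) rfl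
  · exact base [2, 4, 8] (by decide) rfl
  · exact base [2, 5, 6] (by decide) rfl
  · exact base [2, 5, 8] (by decide) rfl
  · exact base [2, 6, 8] (by decide) rfl
  · exact base [3, 4, 8] (by decide) rfl
  · exact base [3, 6, 8] (by decide) rfl
  · exact base [4, 7, 8] (by decide) rfl
  · exact base [0, 4, 6, 8] (by decide) rfl
  · exact base [1, 4, 6, 8] (by decide) rfl
  · exact base [0, 6, 7, 8] (by decide) rfl
  · exact base [1, 6, 7, 8] (by decide) rfl
  · exact base [4, 5, 6, 7] (by decide) rfl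
  · exact base [0, 8] (by decide) rfl
  · exact base [1, 8] (by decide) rfl
  · exact base [2, 8] (by decide) rfl
  · exact base [3, 8] (by decide) rfl
  all_goals simp only [List.mem_cons, List.not_mem_nil, or_false, forall_eq_or_imp, forall_eq] at h
  · -- 5, 8, 9
    obtain ⟨k5, k8, k9⟩ := h
    rw [e5] at k5; rw [e8] at k8; rw [e9] at k9
    exact x5_8_9 k5 (toP (exp_pos _) k8) (toP (exp_pos _) k9)
  · -- 0, 4, 6, 9
    obtain ⟨k0, k4, k6, k9⟩ := h
    have k4' := k4
    rw [e4] at k4; rw [e6] at k6; rw [e9] at k9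
    exact x0_4_6_9 (rel_add k0) (by positivity) (hmul k4 k6) (toP (exp_pos _) k9)
      (toP (Real.rpow_pos_of_pos Real.pi_pos _) k4')
  · -- 1, 4, 6, 9
    obtain ⟨k0, k4, k6, k9⟩ := h
    have k4' := k4
    rw [e4] at k4; rw [e6] at k6; rw [e9] at k9
    have hne : -(π - exp 1) ≠ 0 := by
      have := e_lt_pi
      intro h0
      linarith
    exact x0_4_6_9 (rel_sub k0) hne (hdiv k4 k6) (toP (exp_pos _) k9)
      (toP (Real.rpow_pos_of_pos Real.pi_pos _) k4')
  · obtain ⟨k0, k9, k10⟩ := h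
    rw [e9] at k9
    exact x0_9_11 (rel_add k0) hα ha h1 (toP (exp_pos _) k9) (toP (hrpow _) k10)
  · obtain ⟨k0, k9, k10⟩ := h
    rw [e9] at k9
    exact x0_9_11 (rel_sub k0) hα ha h1 (toP (exp_pos _) k9) (toP (hrpow _) k10)
  · obtain ⟨k0, k9, k10⟩ := h
    rw [e9] at k9
    exact x0_9_11 (rel_div k0) hα ha h1 (toP (exp_pos _) k9) (toP (hrpow _) k10)
  · obtain ⟨k8, k11⟩ := h
    rw [e8] at k8
    exact x8_12 hα ha h1 (toP (exp_pos _) k8) (toP (hrpow _) k11)
  · obtain ⟨k4, k7, k11⟩ := h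
    rw [e4] at k4; rw [e7] at k7
    exact x4_7_12 hα ha h1 k4 k7 k11
  · obtain ⟨k5, k10, k11⟩ := h
    rw [e5] at k5
    exact x5_11_12 hα ha h1 k5 (toP (hrpow _) k10) (toP (hrpow _) k11)

/-- the number of transcendental members of a subfamily of the twelve numbers -/
theorem count {α : ℝ} (hα : 0 < α) (ha : IsAlgebraic ℚ α) (h1 : α ≠ 1) (b : Fin 12 → Bool)
    (hb : ∀ i, b i = true ↔ IsAlgebraic ℚ (twelve α i)) :
    cnt [0, 1, 2, 3, 4, 5, 6, 7, 8, 9, 10, 11] b ≤ 5 ∧
      cnt [0, 1, 2, 3, 4, 5, 6, 7, 8, 9] b ≤ 4 ∧ cnt [0, 1, 2, 3, 4, 5, 6, 7, 8, 11] b ≤ 4 := by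
  have hbv : ![b 0, b 1, b 2, b 3, b 4, b 5, b 6, b 7, b 8, b 9, b 10, b 11] = b := by
    funext i
    fin_cases i <;> rfl
  have h2 := comb (b 0) (b 1) (b 2) (b 3) (b 4) (b 5) (b 6) (b 7) (b 8) (b 9) (b 10) (b 11)
  rw [hbv, test, Bool.or_eq_true] at h2
  rcases h2 with h2 | h2
  · exfalso
    rw [List.any_eq_true] at h2
    obtain ⟨S, hS, h3⟩ := h2
    rw [List.all_eq_true] at h3
    exact main hα ha h1 S hS fun i hi => (hb i).1 (h3 i hi)
  · rw [Bool.and_eq_true, Bool.and_eq_true, decide_eq_true_eq, decide_eq_true_eq,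
      decide_eq_true_eq] at h2
    exact ⟨h2.1.1, h2.1.2, h2.2⟩

open Classical in
/-- **Main result.**  Let `α` be any positive algebraic number, `α ≠ 1` (for example `α = 2`).
(1) At least seven of the twelve numbers `π + e`, `π - e`, `π e`, `π / e`, `π ^ π`, `e ^ e`,
`π ^ e`, `π ^ √2`, `e ^ (π²)` (indices `0` to `8`), `e ^ (π e)` (index `9`), `α ^ e` (index `10`),
`α ^ π` (index `11`) are transcendental.
(2) At least six of the ten numbers with the indices `0` to `9` are transcendental.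
(3) At least six of the ten numbers with the indices `0` to `8` and `11` are transcendental.
(4) One of `e ^ (π²)`, `α ^ π` does not have the property `InP`.
(5) If `e ^ e` is algebraic then one of `e ^ (π²)`, `e ^ (π e)` and one of `α ^ e`, `α ^ π` does not
have the property `InP`.
(6) If one of `π + e`, `π - e`, `π / e` is algebraic then one of `e ^ (π e)`, `α ^ e` does not have
the property `InP`. -/
theorem result (α : ℝ) (hα : 0 < α) (ha : IsAlgebraic ℚ α) (h1 : α ≠ 1) :
    7 ≤ ((Finset.univ : Finset (Fin 12)).filter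
      (fun i => Transcendental ℚ (twelve α i))).card ∧
    6 ≤ (({0, 1, 2, 3, 4, 5, 6, 7, 8, 9} : Finset (Fin 12)).filter
      (fun i => Transcendental ℚ (twelve α i))).card ∧
    6 ≤ (({0, 1, 2, 3, 4, 5, 6, 7, 8, 11} : Finset (Fin 12)).filter
      (fun i => Transcendental ℚ (twelve α i))).card ∧
    (¬ InP (exp (π ^ 2)) ∨ ¬ InP (α ^ π)) ∧
    (IsAlgebraic ℚ (exp 1 ^ exp 1) →
      (¬ InP (exp (π ^ 2)) ∨ ¬ InP (exp (π * exp 1))) ∧ (¬ InP (α ^ exp 1) ∨ ¬ InP (α ^ π))) ∧
    (IsAlgebraic ℚ (π + exp 1) ∨ IsAlgebraic ℚ (π - exp 1) ∨ IsAlgebraic ℚ (π / exp 1) →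
      ¬ InP (exp (π * exp 1)) ∨ ¬ InP (α ^ exp 1)) := by
  let b : Fin 12 → Bool := fun i => decide (IsAlgebraic ℚ (twelve α i))
  have hb : ∀ i, b i = true ↔ IsAlgebraic ℚ (twelve α i) := fun i => decide_eq_true_iff
  obtain ⟨c1, c2, c3⟩ := count hα ha h1 b hb
  have key : ∀ (l : List (Fin 12)) (s : Finset (Fin 12)) (N K : ℕ), l.toFinset = s → l.Nodup →
      l.length = N + K → cnt l b ≤ K →
      N ≤ (s.filter (fun i => Transcendental ℚ (twelve α i))).card := by
    intro l s N K hls hnd hlen hcnt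
    have h2 : (s.filter (fun i => IsAlgebraic ℚ (twelve α i))).card ≤ K := by
      refine le_trans ?_ hcnt
      have h3 : s.filter (fun i => IsAlgebraic ℚ (twelve α i)) = (l.filter b).toFinset := by
        ext i
        rw [Finset.mem_filter, List.mem_toFinset, List.mem_filter, ← hls, List.mem_toFinset, hb]
      rw [h3, List.toFinset_card_of_nodup (hnd.filter b)]
      exact le_rfl
    have h4 := Finset.card_filter_add_card_filter_not (s := s)
      (fun i => IsAlgebraic ℚ (twelve α i))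
    have h5 : s.card = N + K := by
      rw [← hls, List.toFinset_card_of_nodup hnd, hlen]
    have h6 : (s.filter (fun i => ¬ IsAlgebraic ℚ (twelve α i))).card =
        (s.filter (fun i => Transcendental ℚ (twelve α i))).card :=
      congrArg Finset.card (Finset.filter_congr fun i _ => Iff.rfl)
    omega
  refine ⟨?_, ?_, ?_, ?_, ?_, ?_⟩
  · exact key [0, 1, 2, 3, 4, 5, 6, 7, 8, 9, 10, 11] Finset.univ 7 5 (by decide) (by decide) rfl c1
  · exact key [0, 1, 2, 3, 4, 5, 6, 7, 8, 9] _ 6 4 (by decide) (by decide) rfl c2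
  · exact key [0, 1, 2, 3, 4, 5, 6, 7, 8, 11] _ 6 4 (by decide) (by decide) rfl c3
  · by_contra hcon
    push Not at hcon
    exact Pool.Agent.V11252.NP.x8_12 hα ha h1 hcon.1 hcon.2
  · intro k5
    rw [Real.exp_one_rpow] at k5
    constructor
    · by_contra hcon
      push Not at hcon
      exact Pool.Agent.V11252.NP.x5_8_9 k5 hcon.1 hcon.2
    · by_contra hcon
      push Not at hcon
      exact Pool.Agent.V11252.NP.x5_11_12 hα ha h1 k5 hcon.1 hcon.2
  · intro hk
    by_contra hcon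
    push Not at hcon
    rcases hk with k | k | k
    · exact Pool.Agent.V11252.NP.x0_9_11 (Pool.Agent.V11252.NP.rel_add k) hα ha h1 hcon.1 hcon.2
    · exact Pool.Agent.V11252.NP.x0_9_11 (Pool.Agent.V11252.NP.rel_sub k) hα ha h1 hcon.1 hcon.2
    · exact Pool.Agent.V11252.NP.x0_9_11 (Pool.Agent.V11252.NP.rel_div k) hα ha h1 hcon.1 hcon.2

end Pool.Agent.Results.MP_a2f59b_nt.SevenOfTwelve
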